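import Mathlib
import Pool.Agent.Y280.SI.Dj
import Pool.Agent.Y280.SI.Dg
/-!
MP_fd02da_an (Approximating contractions on Schatten classes by isometries), Q1.

One positive contraction `T` of the Schatten class is at distance one from the closed linear span
of all isometries (`p ≠ 2`), and from every weak operator limit of bounded combinations of them.

The starting files `Pool.Agent.Helper872.Sch.*` (Schatten norms, equality case of Clarkson's
inequalities) and `Pool.Agent.Results.MP_fd02da_an.SchattenIsometries` (the Schatten class as a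
normed space, its rank one projections and matrix coefficients) are used.
-/
set_option autoImplicit false
set_option linter.unusedSectionVars false
open scoped ENNReal InnerProductSpace Topology Pointwise
open Module ContinuousLinearMap Filter
open Pool.Agent.Helper872.Sch
open Pool.Agent.Results.MP_fd02da_an.SchattenIsometries
open Pool.Agent.Y280.SI

namespace Pool.Agent.Results.MP_fd02da_an.FarFromIsometries

universe u w
variable {H : Type u} [NormedAddCommGroup H] [InnerProductSpace ℂ H] [CompleteSpace H]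

/-- Pairwise disjoint contractions of `H`: the sum of the absolute values of one diagonal
coefficient is at most one. -/
theorem sum_coef_le {κ : Type*} [Fintype κ] (A : κ → H →L[ℂ] H)
    (h1 : ∀ i j, i ≠ j → adjoint (A i) ∘L A j = 0) (h2 : ∀ i j, i ≠ j → A j ∘L adjoint (A i) = 0)
    (hA : ∀ i x, ‖A i x‖ ≤ ‖x‖) {e : H} (he : ‖e‖ = 1) : ∑ i, ‖⟪e, A i e⟫_ℂ‖ ≤ 1 := by
  classical
  -- split `e` along the kernels
  have hsplit : ∀ i, ∃ y z : H, A i y = 0 ∧ z ∈ (LinearMap.ker (A i : H →ₗ[ℂ] H))ᗮ ∧ e = y + z := by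
    intro i
    obtain ⟨y, hy, z, hz, hyz⟩ :=
      (LinearMap.ker (A i : H →ₗ[ℂ] H)).exists_add_mem_mem_orthogonal e
    exact ⟨y, z, hy, hz, hyz⟩
  choose y z hy hz hyz using hsplit
  have hAz : ∀ i, A i e = A i (z i) := fun i => by
    conv_lhs => rw [hyz i]
    rw [map_add, hy i, zero_add]
  have hker : ∀ i j, i ≠ j → A j (z i) = 0 := by
    intro i j hij
    have h3 : z i ∈ (LinearMap.range ((adjoint (A i) : H →L[ℂ] H) : H →ₗ[ℂ] H)).topologicalClosure := by
      have h4 := ContinuousLinearMap.orthogonal_ker (A i)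
      rw [← h4]
      exact hz i
    have h5 : (LinearMap.range ((adjoint (A i) : H →L[ℂ] H) : H →ₗ[ℂ] H)).topologicalClosure
        ≤ LinearMap.ker (A j : H →ₗ[ℂ] H) := by
      apply Submodule.topologicalClosure_minimal
      · rintro _ ⟨x, rfl⟩
        exact congrFun (congrArg DFunLike.coe (h2 i j hij)) x
      · exact (A j).isClosed_ker
    exact h5 h3
  have hzz : ∀ i j, i ≠ j → ⟪z i, z j⟫_ℂ = 0 := fun i j hij => hz j (z i) (hker i j hij)
  have hze : ∀ i, ⟪z i, e⟫_ℂ = ((‖z i‖ ^ 2 : ℝ) : ℂ) := by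
    intro i
    have h3 : ⟪y i, z i⟫_ℂ = 0 := hz i (y i) (hy i)
    conv_lhs => rw [hyz i]
    rw [inner_add_right, ← inner_conj_symm, h3, map_zero, zero_add, inner_self_eq_norm_sq_to_K]
    push_cast
    rfl
  have hsum : ∑ i, ‖z i‖ ^ 2 ≤ 1 := by
    have e1 : ⟪∑ i, z i, ∑ i, z i⟫_ℂ = ((∑ i, ‖z i‖ ^ 2 : ℝ) : ℂ) := by
      rw [sum_inner]
      push_cast
      refine Finset.sum_congr rfl fun i _ => ?_
      rw [inner_sum, Finset.sum_eq_single i]
      · rw [inner_self_eq_norm_sq_to_K]
        rfl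
      · intro j _ hj
        exact hzz i j (Ne.symm hj)
      · intro h
        exact absurd (Finset.mem_univ _) h
    have e2 : ⟪∑ i, z i, e⟫_ℂ = ((∑ i, ‖z i‖ ^ 2 : ℝ) : ℂ) := by
      rw [sum_inner]
      push_cast
      refine Finset.sum_congr rfl fun i _ => ?_
      rw [hze i]
      push_cast
      rfl
    have e3 := norm_sub_sq (𝕜 := ℂ) e (∑ i, z i)
    have e4 : RCLike.re ⟪e, ∑ i, z i⟫_ℂ = ∑ i, ‖z i‖ ^ 2 := by
      rw [← inner_conj_symm, e2, Complex.conj_ofReal]
      exact Complex.ofReal_re _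
    have e5 : ‖∑ i, z i‖ ^ 2 = ∑ i, ‖z i‖ ^ 2 := by
      rw [inner_self_eq_norm_sq_to_K] at e1
      have e1' : ((‖∑ i, z i‖ ^ 2 : ℝ) : ℂ) = ((∑ i, ‖z i‖ ^ 2 : ℝ) : ℂ) := by
        rw [← e1, Complex.ofReal_pow]
        rfl
      exact Complex.ofReal_injective e1'
    rw [e4, e5, he] at e3
    nlinarith [sq_nonneg ‖e - ∑ i, z i‖]
  -- unimodular factors
  have hom : ∀ i, ∃ ω : ℂ, ‖ω‖ = 1 ∧ (‖⟪e, A i e⟫_ℂ‖ : ℂ) = ω * ⟪e, A i e⟫_ℂ :=
    fun i => Complex.exists_norm_eq_mul_self _
  choose ω hω hc using hom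
  have f1 : ⟪e, ∑ i, ω i • A i e⟫_ℂ = ((∑ i, ‖⟪e, A i e⟫_ℂ‖ : ℝ) : ℂ) := by
    rw [inner_sum]
    push_cast
    refine Finset.sum_congr rfl fun i _ => ?_
    rw [inner_smul_right, ← hc i]
  have f2 : ‖∑ i, ω i • A i e‖ ^ 2 = ∑ i, ‖A i e‖ ^ 2 := by
    have g1 : ⟪∑ i, ω i • A i e, ∑ i, ω i • A i e⟫_ℂ = ((∑ i, ‖A i e‖ ^ 2 : ℝ) : ℂ) := by
      rw [sum_inner]
      push_cast
      refine Finset.sum_congr rfl fun i _ => ?_
      rw [inner_sum, Finset.sum_eq_single i]
      · rw [inner_self_eq_norm_sq_to_K, norm_smul, hω i, one_mul]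
        rfl
      · intro j _ hj
        rw [inner_smul_left, inner_smul_right, ← adjoint_inner_right]
        have : (adjoint (A i)) (A j e) = 0 :=
          congrFun (congrArg DFunLike.coe (h1 i j (Ne.symm hj))) e
        rw [this, inner_zero_right, mul_zero, mul_zero]
      · intro h
        exact absurd (Finset.mem_univ _) h
    rw [inner_self_eq_norm_sq_to_K] at g1
    have g1' : ((‖∑ i, ω i • A i e‖ ^ 2 : ℝ) : ℂ) = ((∑ i, ‖A i e‖ ^ 2 : ℝ) : ℂ) := by
      rw [← g1, Complex.ofReal_pow]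
      rfl
    exact Complex.ofReal_injective g1'
  have f3 : ∑ i, ‖A i e‖ ^ 2 ≤ 1 := by
    refine le_trans (Finset.sum_le_sum fun i _ => ?_) hsum
    rw [hAz i]
    exact pow_le_pow_left₀ (norm_nonneg _) (hA i (z i)) 2
  have f4 : ‖∑ i, ω i • A i e‖ ≤ 1 := by
    rw [← sq_le_one_iff₀ (norm_nonneg _), f2]
    exact f3
  have f5 : ‖⟪e, ∑ i, ω i • A i e⟫_ℂ‖ ≤ ‖∑ i, ω i • A i e‖ := by
    have := norm_inner_le_norm (𝕜 := ℂ) e (∑ i, ω i • A i e)
    rwa [he, one_mul] at this
  rw [f1, Complex.norm_real, Real.norm_of_nonneg (Finset.sum_nonneg fun i _ => norm_nonneg _)] at f5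
  exact f5.trans f4

variable {p : ℝ} [hp : Fact (1 ≤ p)]

theorem proj_disj {ι : Type*} [Nontrivial ι] (b : HilbertBasis ι ℂ H) {i j : ι} (hij : i ≠ j) :
    Disj (projS p b i) (projS p b j) := by
  classical
  have hadj : adjoint (proj b i) = proj b i := by
    refine clm_ext_basis b fun k => ?_
    apply ext_basis b
    intro l
    rw [adjoint_inner_right, proj_basis, proj_basis, inner_smul_left, inner_smul_right]
    by_cases h : l = k
    · subst h
      by_cases h' : l = i
      · simp [h']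
      · simp [h']
    · rw [b.orthonormal.2 h, mul_zero, mul_zero]
  constructor
  · rw [toOp_projS, toOp_projS, hadj]
    refine clm_ext_basis b fun k => ?_
    rw [comp_apply, proj_basis, map_smul, proj_basis, smul_smul]
    by_cases h : k = j
    · rw [if_pos h, if_neg (fun h' => hij (h'.symm.trans h))]
      simp
    · rw [if_neg h]
      simp
  · rw [toOp_projS, toOp_projS, hadj]
    refine clm_ext_basis b fun k => ?_
    rw [comp_apply, proj_basis, map_smul, proj_basis, smul_smul]
    by_cases h : k = i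
    · rw [if_pos h, if_neg (fun h' => hij (h.symm.trans h'))]
      simp
    · rw [if_neg h]
      simp

/-- the functional `V ↦ ⟨e_h, V(P_n) e_h⟩`, where `P_n` is the projection onto the `n`-th block and
`h` its first index -/
noncomputable def Phi {ι : Type*} [Nontrivial ι] (b : HilbertBasis ι ℂ H) (φ : Blk → ι) (n : ℕ)
    (V : SchattenClass p H →L[ℂ] SchattenClass p H) : ℂ :=
  coef b (hd φ n) (V (blkS p b φ n))

theorem Phi_le {ι : Type*} [Nontrivial ι] (b : HilbertBasis ι ℂ H) {φ : Blk → ι}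
    (hφ : Function.Injective φ) (n : ℕ) {V : SchattenClass p H →L[ℂ] SchattenClass p H}
    (hV : V ∈ disjointnessPreserving p H) : ‖Phi b φ n V‖ ≤ 1 := by
  have hp0 : 0 < p := p_pos
  obtain ⟨hV1, hV2⟩ := hV
  have hne : ∀ i j : Fin (n + 1), i ≠ j → φ ⟨n, i⟩ ≠ φ ⟨n, j⟩ := by
    intro i j hij h
    have h2 := hφ h
    exact hij (by simpa using h2)
  have hd' : ∀ i j : Fin (n + 1), i ≠ j →
      Disj (V (projS p b (φ ⟨n, i⟩))) (V (projS p b (φ ⟨n, j⟩))) :=
    fun i j hij => hV2 _ _ (proj_disj b (hne i j hij))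
  have hcon : ∀ (i : Fin (n + 1)) (x : H), ‖toOp (V (projS p b (φ ⟨n, i⟩))) x‖ ≤ ‖x‖ := by
    intro i x
    refine op_le (toOp_compact _) hp0 ?_ x
    rw [← norm_rpow]
    have h1 : ‖V (projS p b (φ ⟨n, i⟩))‖ ≤ 1 := by
      refine (V.le_opNorm _).trans ?_
      rw [norm_projS, mul_one]
      exact hV1
    have h2 : ‖V (projS p b (φ ⟨n, i⟩))‖ ^ p ≤ 1 := Real.rpow_le_one (norm_nonneg _) h1 hp0.le
    rw [← ENNReal.ofReal_one]
    exact ENNReal.ofReal_le_ofReal h2
  have key := sum_coef_le (fun i : Fin (n + 1) => toOp (V (projS p b (φ ⟨n, i⟩))))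
    (fun i j hij => (hd' i j hij).1) (fun i j hij => (hd' i j hij).2) hcon
    (b.orthonormal.1 (hd φ n))
  refine le_trans ?_ key
  rw [Phi, blkS, map_sum, map_sum]
  exact norm_sum_le _ _

theorem Phi_norm {ι : Type*} [Nontrivial ι] (b : HilbertBasis ι ℂ H) {φ : Blk → ι}
    (hφ : Function.Injective φ) (n : ℕ) (V : SchattenClass p H →L[ℂ] SchattenClass p H) :
    ‖Phi b φ n V‖ ≤ ‖V‖ * ((n : ℝ) + 1) ^ (1 / p) := by
  have h1 : ‖coef b (hd φ n) (V (blkS p b φ n))‖ ≤ 1 * ‖V (blkS p b φ n)‖ := coef_le b _ _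
  rw [one_mul] at h1
  refine h1.trans ((V.le_opNorm _).trans ?_)
  gcongr
  exact norm_blkS_le b hφ n

theorem Phi_add {ι : Type*} [Nontrivial ι] (b : HilbertBasis ι ℂ H) (φ : Blk → ι) (n : ℕ)
    (V W : SchattenClass p H →L[ℂ] SchattenClass p H) :
    Phi b φ n (V + W) = Phi b φ n V + Phi b φ n W := by
  rw [Phi, Phi, Phi, add_apply, map_add]

theorem Phi_smul {ι : Type*} [Nontrivial ι] (b : HilbertBasis ι ℂ H) (φ : Blk → ι) (n : ℕ)
    (c : ℂ) (V : SchattenClass p H →L[ℂ] SchattenClass p H) :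
    Phi b φ n (c • V) = c * Phi b φ n V := by
  rw [Phi, Phi, smul_apply, map_smul, smul_eq_mul]

theorem Phi_bigT {ι : Type*} [Nontrivial ι] (b : HilbertBasis ι ℂ H) {φ : Blk → ι}
    (hφ : Function.Injective φ) (n : ℕ) :
    Phi b φ n (bigT b hφ : SchattenClass p H →L[ℂ] SchattenClass p H)
      = ((((n : ℝ) + 1) ^ (1 / p) : ℝ) : ℂ) := by
  rw [Phi, coef_bigT, avg_blkS b hφ]

/-- operators on which the functionals are bounded are far from `T` -/
theorem far {ι : Type*} [Nontrivial ι] (b : HilbertBasis ι ℂ H) {φ : Blk → ι}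
    (hφ : Function.Injective φ) {W : SchattenClass p H →L[ℂ] SchattenClass p H} {K : ℝ}
    (hK : ∀ n, ‖Phi b φ n W‖ ≤ K) : 1 ≤ ‖bigT b hφ - W‖ := by
  have hT := Phi_bigT (p := p) b hφ
  have hp0 : 0 < p := p_pos
  by_contra hcon
  push Not at hcon
  set δ : ℝ := 1 - ‖bigT b hφ - W‖ with hδ
  have hδ0 : 0 < δ := by linarith
  have h1 : ∀ n : ℕ, δ * ((n : ℝ) + 1) ^ (1 / p) ≤ K := by
    intro n
    have h2 : Phi b φ n (bigT b hφ : SchattenClass p H →L[ℂ] SchattenClass p H)
        = Phi b φ n (bigT b hφ - W) + Phi b φ n W := by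
      rw [← Phi_add, sub_add_cancel]
    have h3 := Phi_norm b hφ n (bigT b hφ - W)
    have h4 : ‖Phi b φ n (bigT b hφ : SchattenClass p H →L[ℂ] SchattenClass p H)‖
        ≤ ‖Phi b φ n (bigT b hφ - W)‖ + ‖Phi b φ n W‖ := by
      rw [h2]
      exact norm_add_le _ _
    rw [hT, Complex.norm_real, Real.norm_of_nonneg (by positivity)] at h4
    have h5 := hK n
    rw [hδ]
    linarith
  have h6 : Tendsto (fun n : ℕ => δ * ((n : ℝ) + 1) ^ (1 / p)) atTop atTop := by
    refine Tendsto.const_mul_atTop hδ0 ?_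
    refine (tendsto_rpow_atTop (by positivity)).comp ?_
    exact tendsto_atTop_add_const_right _ _ tendsto_natCast_atTop_atTop
  obtain ⟨n, hn⟩ := (h6.eventually_gt_atTop K).exists
  exact absurd (h1 n) (not_le.2 hn)

/-- The closure of a set `U` of operators on `X` for the weak operator topology: `W` belongs to it
if for every `ε > 0` and every finite set of pairs `(x, y)` (vector, continuous functional) some
`V ∈ U` satisfies `|y (W x) - y (V x)| < ε` for all these pairs. -/
def weakClosure {X : Type*} [NormedAddCommGroup X] [NormedSpace ℂ X] (U : Set (X →L[ℂ] X)) :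
    Set (X →L[ℂ] X) :=
  {W | ∀ ε : ℝ, 0 < ε → ∀ F : Finset (X × (X →L[ℂ] ℂ)), ∃ V ∈ U,
    ∀ f ∈ F, ‖f.2 (W f.1) - f.2 (V f.1)‖ < ε}

/-- The operators `∑ i, c i • V i` (finite sums) with `V i ∈ U`, `c i` complex and
`∑ i, ‖c i‖ ≤ C`. -/
def combinations {X : Type*} [NormedAddCommGroup X] [NormedSpace ℂ X] (U : Set (X →L[ℂ] X))
    (C : ℝ) : Set (X →L[ℂ] X) :=
  {W | ∃ (n : ℕ) (c : Fin n → ℂ) (V : Fin n → (X →L[ℂ] X)), (∀ i, V i ∈ U) ∧ ∑ i, ‖c i‖ ≤ C ∧
    W = ∑ i, c i • V i}

theorem Phi_comb {ι : Type*} [Nontrivial ι] (b : HilbertBasis ι ℂ H) {φ : Blk → ι}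
    (hφ : Function.Injective φ) {C : ℝ} {W : SchattenClass p H →L[ℂ] SchattenClass p H}
    (hW : W ∈ combinations (disjointnessPreserving p H) C) (n : ℕ) : ‖Phi b φ n W‖ ≤ C := by
  obtain ⟨m, c, V, hV, hc, rfl⟩ := hW
  have h1 : Phi b φ n (∑ i, c i • V i) = ∑ i, c i * Phi b φ n (V i) := by
    rw [Phi, sum_apply, map_sum]
    refine Finset.sum_congr rfl fun i _ => ?_
    rw [smul_apply, map_smul, smul_eq_mul]
    rfl
  rw [h1]
  refine (norm_sum_le _ _).trans (le_trans (Finset.sum_le_sum fun i _ => ?_) hc)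
  rw [norm_mul]
  exact mul_le_of_le_one_right (norm_nonneg _) (Phi_le b hφ n (hV i))

theorem Phi_weak {ι : Type*} [Nontrivial ι] (b : HilbertBasis ι ℂ H) {φ : Blk → ι}
    (hφ : Function.Injective φ) {C : ℝ} {W : SchattenClass p H →L[ℂ] SchattenClass p H}
    (hW : W ∈ weakClosure (combinations (disjointnessPreserving p H) C)) (n : ℕ) :
    ‖Phi b φ n W‖ ≤ C + 1 := by
  obtain ⟨V, hV, hf⟩ := hW 1 one_pos {(blkS p b φ n, coef b (hd φ n))}
  have h1 := hf _ (Finset.mem_singleton_self _)
  have h2 : ‖Phi b φ n W - Phi b φ n V‖ < 1 := h1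
  have h3 := Phi_comb b hφ hV n
  have h4 : ‖Phi b φ n W‖ ≤ ‖Phi b φ n W - Phi b φ n V‖ + ‖Phi b φ n V‖ := by
    have := norm_add_le (Phi b φ n W - Phi b φ n V) (Phi b φ n V)
    rwa [sub_add_cancel] at this
  linarith

/-- The closure, in the operator norm, of the complex linear span of `U`. -/
def closedSpan {X : Type*} [NormedAddCommGroup X] [NormedSpace ℂ X] (U : Set (X →L[ℂ] X)) :
    Set (X →L[ℂ] X) :=
  closure (Submodule.span ℂ U : Set (X →L[ℂ] X))

/-- `T` has distance at least one to every element of `U`. -/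
def FarFrom {X : Type*} [NormedAddCommGroup X] [NormedSpace ℂ X] (T : X →L[ℂ] X)
    (U : Set (X →L[ℂ] X)) : Prop :=
  ∀ W ∈ U, 1 ≤ ‖T - W‖

/-- `T` has norm one, distance at least one to every element of the closed linear span of `D`, and
distance at least one to every element of the weak operator closure of the set of all combinations
`∑ c_i V_i`, `V_i ∈ D`, `∑ |c_i| ≤ C`, for every constant `C`. -/
def ExtremelyFar {X : Type*} [NormedAddCommGroup X] [NormedSpace ℂ X] (T : X →L[ℂ] X)
    (D : Set (X →L[ℂ] X)) : Prop :=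
  ‖T‖ = 1 ∧ FarFrom T (closedSpan D) ∧ ∀ C : ℝ, FarFrom T (weakClosure (combinations D C))

/-- `T` maps positive operators to positive operators. -/
def PositivityPreserving (T : SchattenClass p H →L[ℂ] SchattenClass p H) : Prop :=
  ∀ a, (toOp a).IsPositive → (toOp (T a)).IsPositive

/-- Let `H` be an infinite-dimensional complex Hilbert space and `p ≥ 1` real, and let
`D = disjointnessPreserving p H` be the set of all contractions of the Schatten class `𝔖_p(H)`
which map disjoint pairs to disjoint pairs; for `p ≠ 2` it contains all isometries. There is a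
positivity preserving operator `T` on `𝔖_p(H)` of norm one whose distance to every element of the
closed linear span of `D` is at least one, and also whose distance to every weak operator limit of
combinations `∑ c_i V_i` with `V_i ∈ D`, `∑ |c_i| ≤ C` (any constant `C`) is at least one; for
`p ≠ 2` the operator `T` is not the pw-limit of a net of isometries. -/
theorem result (H : Type u) [NormedAddCommGroup H] [InnerProductSpace ℂ H] [CompleteSpace H]
    (hH : ¬ FiniteDimensional ℂ H) (p : ℝ) [Fact (1 ≤ p)] :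
    (p ≠ 2 → isometries (SchattenClass p H) ⊆ disjointnessPreserving p H) ∧
    ∃ T : SchattenClass p H →L[ℂ] SchattenClass p H,
      ExtremelyFar T (disjointnessPreserving p H) ∧ PositivityPreserving T ∧
      (p ≠ 2 → T ∉ pwClos.{w} (isometries (SchattenClass p H))) := by
  classical
  refine ⟨fun hp2 => isometries_subset hp2, ?_⟩
  obtain ⟨s, b, hb⟩ := exists_hilbertBasis ℂ H
  have hinf : Infinite s := by
    by_contra hcon
    rw [not_infinite_iff_finite] at hcon
    apply hH
    have : Fintype s := Fintype.ofFinite _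
    exact (b.toOrthonormalBasis).toBasis.finiteDimensional_of_finite
  have hnt : Nontrivial s := inferInstance
  obtain ⟨eqv⟩ : Nonempty (Blk ≃ ℕ) := nonempty_equiv_of_countable
  let φ : Blk → s := fun t => (Infinite.natEmbedding s) (eqv t)
  have hφ : Function.Injective φ := (Infinite.natEmbedding s).injective.comp eqv.injective
  have hspan : ∀ W ∈ closure (Submodule.span ℂ (disjointnessPreserving p H) :
        Set (SchattenClass p H →L[ℂ] SchattenClass p H)), 1 ≤ ‖bigT b hφ - W‖ := by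
    have hcl : IsClosed {W : SchattenClass p H →L[ℂ] SchattenClass p H | 1 ≤ ‖bigT b hφ - W‖} :=
      isClosed_le continuous_const (continuous_const.sub continuous_id).norm
    refine fun W hW => closure_minimal ?_ hcl hW
    intro W hW
    have hb : ∃ K, ∀ n, ‖Phi b φ n W‖ ≤ K := by
      induction hW using Submodule.span_induction with
      | mem x hx => exact ⟨1, fun n => Phi_le b hφ n hx⟩
      | zero => exact ⟨0, fun n => by
          rw [Phi, zero_apply, map_zero, norm_zero]⟩
      | add x y _ _ hx hy =>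
        obtain ⟨K, hK⟩ := hx
        obtain ⟨L, hL⟩ := hy
        exact ⟨K + L, fun n => by
          rw [Phi_add]
          exact (norm_add_le _ _).trans (add_le_add (hK n) (hL n))⟩
      | smul c x _ hx =>
        obtain ⟨K, hK⟩ := hx
        exact ⟨‖c‖ * K, fun n => by
          rw [Phi_smul, norm_mul]
          exact mul_le_mul_of_nonneg_left (hK n) (norm_nonneg _)⟩
    obtain ⟨K, hK⟩ := hb
    exact far b hφ hK
  have hweak : ∀ C : ℝ, ∀ W ∈ weakClosure (combinations (disjointnessPreserving p H) C),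
      1 ≤ ‖bigT b hφ - W‖ := fun C W hW => far b hφ (Phi_weak b hφ hW)
  refine ⟨bigT b hφ, ⟨le_antisymm (bigT_norm_le b hφ) ?_, hspan, hweak⟩,
    fun a ha => bigT_positive b hφ a ha, ?_⟩
  · have := hspan 0 (subset_closure (Submodule.zero_mem _))
    rwa [sub_zero] at this
  · rintro hp2 ⟨ι, _, _, _, S, hS, hlim⟩
    have hmem : bigT b hφ ∈ weakClosure (combinations (disjointnessPreserving p H) 1) := by
      intro ε hε F
      have h1 : ∀ f ∈ F, ∀ᶠ i in atTop, ‖f.2 ((bigT b hφ) f.1) - f.2 (S i f.1)‖ < ε := by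
        intro f _
        have h2 := hlim f.1 f.2 1
        simp only [pow_one] at h2
        have h3 := (tendsto_const_nhds (x := f.2 ((bigT b hφ) f.1))).sub h2
        rw [sub_self] at h3
        have h4 := h3.norm
        rw [norm_zero] at h4
        exact (tendsto_order.1 h4).2 ε hε
      have h5 : ∀ᶠ i in atTop, ∀ f ∈ F, ‖f.2 ((bigT b hφ) f.1) - f.2 (S i f.1)‖ < ε :=
        (Finset.eventually_all F).2 h1
      obtain ⟨i, hi⟩ := h5.exists
      refine ⟨S i, ⟨1, fun _ => 1, fun _ => S i, fun _ => isometries_subset hp2 (hS i), ?_, ?_⟩, hi⟩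
      · simp
      · simp
    have := hweak 1 _ hmem
    rw [sub_self, norm_zero] at this
    linarith

end Pool.Agent.Results.MP_fd02da_an.FarFromIsometries
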